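import Pool.Agent.Helper22.TB.Goals

/-!
# Project TB: packet CMP
-/

set_option autoImplicit false

open Finset Filter Topology

namespace Pool.Agent.Helper22.TB

theorem gCMP : G_CMP := by
  intro ker θ ρ ρ₀ h0 h1 h2 h3
  have hρ0 : 0 ≤ ρ := h0.trans h2
  obtain ⟨e1, p1, -⟩ := ker θ ρ hρ0 h3
  obtain ⟨e2, p2, -⟩ := ker θ ρ₀ h0 (lt_of_le_of_lt h2 h3)
  rw [e1, e2]
  have hc1 := Real.neg_one_le_cos θ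
  have hc2 := Real.cos_le_one θ
  set c := Real.cos θ with hc
  have hden : 1 + 2 * ρ₀ * c + ρ₀ ^ 2 ≤ 4 * (1 + 2 * ρ * c + ρ ^ 2) := by
    have a1 : 1 + 2 * ρ₀ * c + ρ₀ ^ 2 = (1 - ρ₀) ^ 2 + 2 * ρ₀ * (1 + c) := by ring
    have a2 : 1 + 2 * ρ * c + ρ ^ 2 = (1 - ρ) ^ 2 + 2 * ρ * (1 + c) := by ring
    rw [a1, a2]
    have a3 : 1 - ρ₀ ≤ 2 * (1 - ρ) := by nlinarith
    have a4 : 0 ≤ 1 - ρ₀ := by linarith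
    have a5 : (1 - ρ₀) ^ 2 ≤ (2 * (1 - ρ)) ^ 2 := pow_le_pow_left₀ a4 a3 2
    have a6 : ρ₀ * (1 + c) ≤ ρ * (1 + c) := mul_le_mul_of_nonneg_right h2 (by linarith)
    have a7 : 0 ≤ ρ * (1 + c) := mul_nonneg hρ0 (by linarith)
    nlinarith
  have hnum : 1 - ρ ^ 2 ≤ 1 - ρ₀ ^ 2 := by nlinarith
  have hnum0 : 0 ≤ 1 - ρ₀ ^ 2 := by nlinarith
  rw [← mul_div_assoc, div_le_div_iff₀ p1 p2]
  calc (1 - ρ ^ 2) * (1 + 2 * ρ₀ * c + ρ₀ ^ 2)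
      ≤ (1 - ρ₀ ^ 2) * (1 + 2 * ρ₀ * c + ρ₀ ^ 2) := mul_le_mul_of_nonneg_right hnum p2.le
    _ ≤ (1 - ρ₀ ^ 2) * (4 * (1 + 2 * ρ * c + ρ ^ 2)) := mul_le_mul_of_nonneg_left hden hnum0
    _ = 4 * (1 - ρ₀ ^ 2) * (1 + 2 * ρ * c + ρ ^ 2) := by ring

end Pool.Agent.Helper22.TB
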