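import Pool.Agent.Helper22.TB.Goals

/-!
# Project TB: packets SUMW and DVL
-/

set_option autoImplicit false

open Finset Filter Topology
open Pool.Agent.Helper90.Twin (Ps Gz mem_Ps)
open scoped Classical

namespace Pool.Agent.Helper22.TB

theorem sqf_prod {S : Finset ℕ} (hS : ∀ p ∈ S, p.Prime) : Squarefree (∏ p ∈ S, p) := by
  have h : (∏ p ∈ S, p) = ∏ p ∈ (∏ p ∈ S, p).primeFactors, p := by
    rw [Nat.primeFactors_prod hS]
  induction S using Finset.induction_on with
  | empty => simp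
  | insert a S ha ih =>
    rw [Finset.prod_insert ha]
    have hS' : ∀ p ∈ S, p.Prime := fun p hp => hS p (Finset.mem_insert_of_mem hp)
    have hap := hS a (Finset.mem_insert_self a S)
    have hih := ih hS' (by rw [Nat.primeFactors_prod hS'])
    rw [Nat.squarefree_mul_iff]
    refine ⟨?_, hap.prime.squarefree, hih⟩
    apply Nat.Coprime.prod_right
    intro p hp
    rw [Nat.coprime_primes hap (hS' p hp)]
    rintro rfl
    exact ha hp

theorem sum_divisors_prod {S : Finset ℕ} (hS : ∀ p ∈ S, p.Prime) (F : Finset ℕ → ℝ) :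
    ∑ q ∈ (∏ p ∈ S, p).divisors, F q.primeFactors = ∑ J ∈ S.powerset, F J := by
  have h0 : (∏ p ∈ S, p) ≠ 0 := (sqf_prod hS).ne_zero
  refine Finset.sum_nbij' (fun q => q.primeFactors) (fun J => ∏ p ∈ J, p) ?_ ?_ ?_ ?_ ?_
  · intro q hq
    rw [Finset.mem_powerset]
    have := Nat.primeFactors_mono (Nat.dvd_of_mem_divisors hq) h0
    rwa [Nat.primeFactors_prod hS] at this
  · intro J hJ
    rw [Finset.mem_powerset] at hJ
    rw [Nat.mem_divisors]
    exact ⟨Finset.prod_dvd_prod_of_subset _ _ _ hJ, h0⟩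
  · intro q hq
    exact Nat.prod_primeFactors_of_squarefree
      ((sqf_prod hS).squarefree_of_dvd (Nat.dvd_of_mem_divisors hq))
  · intro J hJ
    rw [Finset.mem_powerset] at hJ
    exact Nat.primeFactors_prod (fun p hp => hS p (hJ hp))
  · intro q _
    rfl

theorem Ps_prime {L p : ℕ} (hp : p ∈ Ps L) : p.Prime := (mem_Ps.1 hp).2.2

theorem Ps_five {L p : ℕ} (hp : p ∈ Ps L) : (5 : ℝ) ≤ p := by
  exact_mod_cast (mem_Ps.1 hp).1

theorem one_add_sm {p g : ℕ} (hp : (5 : ℝ) ≤ p) : wp p g = (1 - 2 / (p : ℝ)) * (1 + sm p g) := by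
  have h0 : (p : ℝ) ≠ 0 := by linarith
  have h2 : (p : ℝ) - 2 ≠ 0 := by
    intro h
    linarith
  unfold wp sm
  split_ifs
  · field_simp
    ring
  · field_simp
    ring
  · field_simp
    ring

theorem gSUMW : G_SUMW := by
  intro L g
  have h1 : PL L g = ∏ p ∈ Ps L, ((1 - 2 / (p : ℝ)) * (1 + sm p g)) := by
    unfold PL
    exact Finset.prod_congr rfl (fun p hp => one_add_sm (Ps_five hp))
  rw [h1, Finset.prod_mul_distrib]
  have h2 : ∏ p ∈ Ps L, (1 - 2 / (p : ℝ)) = Gz L := rfl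
  rw [h2]
  congr 1
  have h3 : ∏ p ∈ Ps L, (1 + sm p g) = ∑ J ∈ (Ps L).powerset, ∏ p ∈ J, sm p g := by
    rw [Finset.prod_one_add]
  rw [h3]
  have h4 := sum_divisors_prod (S := Ps L) (fun p hp => Ps_prime hp) (fun J => ∏ p ∈ J, sm p g)
  rw [← h4]
  rfl

theorem gDVL : G_DVL := by
  intro L
  have hS : ∀ p ∈ Ps L, p.Prime := fun p hp => Ps_prime hp
  refine ⟨?_, ?_⟩
  · intro q hq
    have hd := Nat.dvd_of_mem_divisors hq
    have hsq : Squarefree q := (sqf_prod hS).squarefree_of_dvd hd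
    refine ⟨⟨hsq, ?_⟩, Nat.pos_of_mem_divisors hq⟩
    rw [Nat.coprime_comm]
    apply Nat.Coprime.coprime_dvd_right hd
    unfold PP
    apply Nat.Coprime.prod_right
    intro p hp
    have h5 := (mem_Ps.1 hp).1
    rw [Nat.coprime_comm, (hS p hp).coprime_iff_not_dvd]
    intro h6
    have := Nat.le_of_dvd (by norm_num) h6
    have h7 : p = 5 ∨ p = 6 := by omega
    rcases h7 with rfl | rfl
    · omega
    · exact absurd (hS 6 hp) (by norm_num)
  · intro q hq1 hqL hq
    rw [Nat.mem_divisors]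
    refine ⟨?_, (sqf_prod hS).ne_zero⟩
    have h1 : q = ∏ p ∈ q.primeFactors, p := (Nat.prod_primeFactors_of_squarefree hq.1).symm
    rw [h1]
    unfold PP
    apply Finset.prod_dvd_prod_of_subset
    intro p hp
    have hpp := Nat.prime_of_mem_primeFactors hp
    have hpd := Nat.dvd_of_mem_primeFactors hp
    rw [mem_Ps]
    refine ⟨?_, (Nat.le_of_dvd (by omega) hpd).trans hqL, hpp⟩
    have hc : Nat.Coprime p 6 := Nat.Coprime.coprime_dvd_left hpd hq.2
    rw [hpp.coprime_iff_not_dvd] at hc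
    by_contra hlt
    push Not at hlt
    have h2 := hpp.two_le
    have h4 : p ≠ 4 := by
      rintro rfl
      norm_num at hpp
    have : p = 2 ∨ p = 3 := by omega
    rcases this with rfl | rfl
    · exact hc (by norm_num)
    · exact hc (by norm_num)

end Pool.Agent.Helper22.TB
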