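import Pool.Agent.Helper22.TB.Defs

/-!
# Project TB (MP_74f661_nt), part E: the pair correlation sum, goals

Each goal is a `Prop`; prove `theorem x : G_...` in a file of your own.  Goals used as hypotheses are
written as hypotheses.  `Π`, `π` is never a variable name here.

Overview: with `r = 1 - 1/K`, `PL L g = Gz L * ∑_{q ∣ PP L} sq q g` (SUMW), so the sum in `StmtE1` is
`Gz L / (2 r) * (∑_q Ab r (sq q) - 1 / Gz L)`; `Ab r (sq q) ≥ 0`; the `q ≤ K log^B K` contribute `o(log^2 K)`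
(DYAD, LOW), the `q > K log^B K` contribute `∑ gq q + o(1)` (TAIL).
-/

set_option autoImplicit false

open Finset Filter Topology
open Pool.Agent.Helper90.Twin (Ps Gz)
open scoped Classical

namespace Pool.Agent.Helper22.TB

/-! ## 1. Cosines -/

/-- **KER.** The Poisson kernel.

Proof.  `(-1)^g r^g cos (θ g) = Re x^g`, `x = - r e^{iθ}`, `|x| = r < 1`. So `Ab = Re (1 + 2 ∑_{g ≥ 1} x^g)
= Re ((1 + x) / (1 - x)) = (1 - |x|^2) / |1 - x|^2` and `|1 - x|^2 = 1 + 2 r cos θ + r^2 ≥ (1 - r)^2 > 0`.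
(Or: multiply the series by `1 + 2 r cos θ + r^2` and use `2 cos θ cos (gθ) = cos ((g+1)θ) + cos ((g-1)θ)`.) -/
def G_KER : Prop := ∀ (θ r : ℝ), 0 ≤ r → r < 1 →
  Ab r (fun g => Real.cos (θ * g)) = (1 - r ^ 2) / (1 + 2 * r * Real.cos θ + r ^ 2) ∧
  0 < 1 + 2 * r * Real.cos θ + r ^ 2 ∧ 0 ≤ Ab r (fun g => Real.cos (θ * g))

/-- **ABL.** Linearity of `Ab` on bounded functions.

Proof.  `(-1)^(g+1) f(g+1) r^(g+1)` is absolutely summable (geometric series). -/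
def G_ABL : Prop := ∀ (ι : Type) (s : Finset ι) (c : ι → ℝ) (f : ι → ℕ → ℝ) (r : ℝ), 0 ≤ r → r < 1 →
  (∀ i ∈ s, Bd (f i)) → Ab r (fun g => ∑ i ∈ s, c i * f i g) = ∑ i ∈ s, c i * Ab r (f i)

/-- **ABM.** Sum over the multiples of an odd `m`.

Proof.  In the series on the left only `g + 1 = m (k + 1)` matter; `(-1)^(m k) = (-1)^k` since `m` is odd. -/
def G_ABM : Prop := ∀ (f : ℕ → ℝ) (r : ℝ) (m : ℕ), 0 ≤ r → r < 1 → Bd f → Odd m →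
  Ab r (fun g => if m ∣ g then f g else 0) = Ab (r ^ m) (fun k => f (m * k))

/-- **PDC.** Closure properties of `PD` and `PDU`.

Proof.  `cos α cos β = (cos (α + β) + cos (α - β)) / 2`. For `PDU`: `a/q ± a'/q' = (a q' ± a' q) / (q q')` and this
numerator is prime to `q q'`. For `PDU q f → PD f` take `θ = 2 π a / q`. Bounded by `∑ c`. -/
def G_PDC : Prop :=
  (∀ f g : ℕ → ℝ, PD f → PD g → PD (fun n => f n * g n)) ∧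
  (∀ (ι : Type) (s : Finset ι) (f : ι → ℕ → ℝ), (∀ i ∈ s, PD (f i)) →
    PD (fun n => ∑ i ∈ s, f i n)) ∧
  (∀ (c : ℝ) (f : ℕ → ℝ), 0 ≤ c → PD f → PD (fun n => c * f n)) ∧
  (∀ (m : ℕ) (f : ℕ → ℝ), PD f → PD (fun n => f (m * n))) ∧
  (∀ f : ℕ → ℝ, PD f → Bd f) ∧ PD (fun _ => 1) ∧
  (∀ (q : ℕ) (f : ℕ → ℝ), PDU q f → PD f) ∧
  (∀ (q q' : ℕ) (f g : ℕ → ℝ), 1 ≤ q → 1 ≤ q' → Nat.Coprime q q' → PDU q f → PDU q' g →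
    PDU (q * q') (fun n => f n * g n)) ∧ PDU 1 (fun _ => 1)

/-- **POS.** Positivity (hypotheses KER, ABL, PDC). -/
def G_POS : Prop := G_KER → G_ABL → G_PDC → ∀ (f : ℕ → ℝ) (r : ℝ), 0 ≤ r → r < 1 → PD f → 0 ≤ Ab r f

/-- **SIG.** The local functions. With `3 b ≡ 1 (mod p)`:
`sm p g = ∑_{a=1}^{p-1} (2 + 2 cos (2 π a b / p)) / (p-2)^2 * cos (2 π a g / p)`.

Proof.  `∑_{a=1}^{p-1} cos (2 π a x / p) = p 1_{p ∣ x} - 1`, `2 cos α cos β = cos (α + β) + cos (α - β)`, so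
the right side is `(2 p 1_{p ∣ g} + p 1_{p ∣ g + b} + p 1_{p ∣ g - b} - 4) / (p-2)^2`; `p ∣ g ± b` iff
`p ∣ 3 g ± 1` (at most one of the three events happens, `p ≥ 5`). `2/(p-2) = (2p-4)/(p-2)^2`. (At `g = 0`
natural subtraction is harmless: the first branch of `sm` is used.) The second statement: `1_{p ∣ g} = (1/p) ∑_{a=0}^{p-1}
cos (2 π a g / p)`, so the function is `∑_a (4 / (p-2)^2 - c_a) cos (2 π a g / p)` with `c_0 = 0`, `c_a ≤ 4/(p-2)^2`. -/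
def G_SIG : Prop := ∀ p : ℕ, p.Prime → 5 ≤ p →
  PDU p (sm p) ∧
  PD (fun g => (if p ∣ g then 4 * (p : ℝ) / ((p : ℝ) - 2) ^ 2 else 0) - sm p g)

/-- **SQ.** (hypotheses PDC, SIG).

Proof.  `primeFactors` of a coprime product is the disjoint union; induction over the prime factors. `p ∣ 0`. -/
def G_SQ : Prop := G_PDC → G_SIG →
  (∀ q q' g : ℕ, Nat.Coprime q q' → sq (q * q') g = sq q g * sq q' g) ∧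
  (∀ q : ℕ, sq q 0 = gq q) ∧ (∀ q : ℕ, SF6 q → PDU q (sq q))

/-- **DOM.** Domination (hypotheses as listed).

Proof.  Let `σ_p = sm p`, `τ_p` the second function of SIG, so `σ_p + τ_p = 4p/(p-2)^2 1_{p ∣ g}` and
`∏_{p ∣ q₁} (σ_p + τ_p) = CQ q₁ 1_{q₁ ∣ g}`. `∏ (σ + τ) - ∏ σ = ∑_{J ≠ ∅} ∏_{J} τ ∏_{J^c} σ` (`Finset.prod_add`) is PD;
multiply by `sq q₂`, which is PD; apply POS and ABL: `Ab r (sq (q₁ q₂)) ≤ Ab r (CQ q₁ 1_{q₁ ∣ g} sq q₂ g)`, and ABM. -/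
def G_DOM : Prop := G_ABL → G_ABM → G_PDC → G_SIG →
  (∀ (f : ℕ → ℝ) (r : ℝ), 0 ≤ r → r < 1 → PD f → 0 ≤ Ab r f) →
  ((∀ q q' g : ℕ, Nat.Coprime q q' → sq (q * q') g = sq q g * sq q' g) ∧
    (∀ q : ℕ, sq q 0 = gq q) ∧ (∀ q : ℕ, SF6 q → PDU q (sq q))) →
  ∀ (q₁ q₂ : ℕ) (r : ℝ), SF6 (q₁ * q₂) → Nat.Coprime q₁ q₂ → 0 ≤ r → r < 1 →
    Ab r (sq (q₁ * q₂)) ≤ CQ q₁ * Ab (r ^ q₁) (fun k => sq q₂ (q₁ * k))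

/-- **TRIV.** (hypotheses KER, POS conclusion, PDC, SQ conclusion, DOM conclusion).

Proof.  `sq q` is PD. DOM with `q₂ = 1`, `sq 1 = 1`; KER with `θ = 0`: `(1 - ρ^2)/(1+ρ)^2 = (1-ρ)/(1+ρ) ≤ 1 - ρ`, `ρ = r^q`,
and `1 - r^q ≤ q (1 - r)` (Bernoulli). -/
def G_TRIV : Prop := G_KER → (∀ (f : ℕ → ℝ) (r : ℝ), 0 ≤ r → r < 1 → PD f → 0 ≤ Ab r f) → G_PDC →
  ((∀ q q' g : ℕ, Nat.Coprime q q' → sq (q * q') g = sq q g * sq q' g) ∧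
    (∀ q : ℕ, sq q 0 = gq q) ∧ (∀ q : ℕ, SF6 q → PDU q (sq q))) →
  (∀ (q₁ q₂ : ℕ) (r : ℝ), SF6 (q₁ * q₂) → Nat.Coprime q₁ q₂ → 0 ≤ r → r < 1 →
    Ab r (sq (q₁ * q₂)) ≤ CQ q₁ * Ab (r ^ q₁) (fun k => sq q₂ (q₁ * k))) →
  ∀ (q : ℕ) (r : ℝ), SF6 q → 0 ≤ r → r < 1 →
    0 ≤ Ab r (sq q) ∧ Ab r (sq q) ≤ CQ q * min 1 (q * (1 - r))

/-- **AVG.** Average over the classes (hypotheses ABL, ABM, KER).

Proof.  For fixed `k`: `∑_{c < q} cos (2 π a c k / q) = q 1_{q ∣ k}` (`a` is prime to `q`). So the sum is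
`q Ab ρ (1_{q ∣ k}) = q Ab (ρ^q) 1 = q (1 - ρ^q) / (1 + ρ^q)` (`q` odd). -/
def G_AVG : Prop := G_ABL → G_ABM → G_KER → ∀ (q : ℕ) (a : ℤ) (ρ : ℝ), Odd q → IsCoprime a (q : ℤ) →
  0 ≤ ρ → ρ < 1 →
    ∑ c ∈ range q, Ab ρ (fun k => Real.cos (2 * Real.pi * a * (c * k : ℕ) / q))
      = q * ((1 - ρ ^ q) / (1 + ρ ^ q))

/-- **CMP.** Comparison of two kernels (hypothesis KER).

Proof.  `1 + 2ρ cos θ + ρ^2 = (1-ρ)^2 + 4ρ cos^2 (θ/2) =: D(ρ)`. `1 - ρ₀ ≤ 1 - ρ^2 ≤ 2 (1 - ρ)`, so `D(ρ₀) ≤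
4 (1-ρ)^2 + 4 ρ cos^2 (θ/2) ≤ 4 D(ρ)`, and `1 - ρ^2 ≤ 1 - ρ₀^2`. -/
def G_CMP : Prop := G_KER → ∀ (θ ρ ρ₀ : ℝ), 0 ≤ ρ₀ → ρ ^ 2 ≤ ρ₀ → ρ₀ ≤ ρ → ρ < 1 →
  Ab ρ (fun g => Real.cos (θ * g)) ≤ 4 * Ab ρ₀ (fun g => Real.cos (θ * g))

/-- **CLS.** Sum over a set with few elements in each class (hypotheses: ABL, KER, PDC, conclusions of AVG, CMP).

Proof.  Write `f g = ∑ c_i cos (2 π a_i g / q)`; `Ab` is linear on bounded functions (ABL). For `x ∈ S` put `ρ = r^x`,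
`ρ₀ = r^m`: `ρ₀ ≤ ρ`, `ρ^2 = r^(2x) ≤ r^m`. By CMP `Ab (r^x) (k ↦ f (x k)) ≤ 4 Ab (r^m) (k ↦ f (x k)) =: 4 W x`, and
`W x ≥ 0` depends on `x % q` only. So `∑_{x ∈ S} W x ≤ n ∑_{c < q} W c` and by AVG `∑_{c < q} W c = (∑ c_i) q (1 - ρ₀^q)/(1 + ρ₀^q)
≤ f 0 q min 1 (m q (1 - r))`. -/
def G_CLS : Prop := G_ABL → G_KER → G_PDC →
  (∀ (q : ℕ) (a : ℤ) (ρ : ℝ), Odd q → IsCoprime a (q : ℤ) → 0 ≤ ρ → ρ < 1 →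
    ∑ c ∈ range q, Ab ρ (fun k => Real.cos (2 * Real.pi * a * (c * k : ℕ) / q))
      = q * ((1 - ρ ^ q) / (1 + ρ ^ q))) →
  (∀ (θ ρ ρ₀ : ℝ), 0 ≤ ρ₀ → ρ ^ 2 ≤ ρ₀ → ρ₀ ≤ ρ → ρ < 1 →
    Ab ρ (fun g => Real.cos (θ * g)) ≤ 4 * Ab ρ₀ (fun g => Real.cos (θ * g))) →
  ∀ (q : ℕ) (f : ℕ → ℝ) (S : Finset ℕ) (m n : ℕ) (r : ℝ), Odd q → PDU q f → 0 ≤ r → r < 1 →
    (∀ x ∈ S, 1 ≤ x ∧ x ≤ m ∧ m ≤ 2 * x) → (∀ c < q, (S.filter (fun x => x % q = c)).card ≤ n) →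
    ∑ x ∈ S, Ab (r ^ x) (fun k => f (x * k)) ≤ 4 * n * f 0 * q * min 1 (m * q * (1 - r))

/-! ## 2. Elementary prime number estimates -/

/-- **MP.** Upper bounds of Mertens type.

Proof.  `Helper56.ax x = ∑_{p ≤ x} - log (1 - 1/p)` and `Helper56.ax_sub_loglog_tendsto : ax x - log log x → γ`.
`1/p ≤ - log (1 - 1/p)` gives the first statement (small `x ≥ 3` are absorbed in `C`), `1 + k/p ≤ exp (k/p)` the second;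
the third: `∏_{p ≤ x} (1 - 1/p) = exp (- ax x)`, and the primes 2, 3 only change the constant. -/
def G_MP : Prop :=
  (∃ C : ℝ, 0 < C ∧ ∀ x : ℕ, 3 ≤ x → ∑ p ∈ Ps x, 1 / (p : ℝ) ≤ Real.log (Real.log x) + C) ∧
  (∀ k : ℝ, 0 ≤ k → ∃ C : ℝ, 0 < C ∧ ∀ x : ℕ, 3 ≤ x →
    ∏ p ∈ Ps x, (1 + k / (p : ℝ)) ≤ C * Real.log x ^ k) ∧
  (∃ C : ℝ, 0 < C ∧ ∀ x : ℕ, 3 ≤ x → ∏ p ∈ Ps x, (1 - 1 / (p : ℝ)) ≤ C / Real.log x)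

/-- **BRU.** Brun's pure sieve.

Proof.  Bonferroni: for `m : ℕ`, `|1_{m=0} - ∑_{j<b} (-1)^j C(m,j)| ≤ C(m,b)` (for `m, b ≥ 1` the sum is `(-1)^(b-1) C(m-1,b-1)`).
With `m` the number of `p ∈ P` with `bad p t`, sum over `t < N`: `∑_t C(m(t), j) = ∑_{d ⊆ P, |d| = j} N_d`, `N_d = #{t < N : bad p t
for all p ∈ d}`, `|N_d - N ∏_{p ∈ d} ν p / p| ≤ ∏_{p ∈ d} ν p` (CRT). The same inequality for independent events (or induction):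
`|∏ (1 - x_p) - ∑_{j<b} (-1)^j e_j(x)| ≤ e_b(x)` for `x_p = ν p / p ∈ [0,1]`. `e_b(x) ≤ (∑ x)^b / b!`,
`∑_{|d| ≤ b} ∏ ν p ≤ (1 + ∑ ν p)^b`. -/
def G_BRU : Prop := ∀ (P : Finset ℕ) (bad : ℕ → ℕ → Prop) (ν : ℕ → ℕ) (N b : ℕ),
  (∀ p ∈ P, p.Prime) → (∀ p ∈ P, ∀ t, bad p (t + p) ↔ bad p t) →
  (∀ p ∈ P, ((range p).filter (fun t => bad p t)).card = ν p) →
  |(((range N).filter (fun t => ∀ p ∈ P, ¬ bad p t)).card : ℝ) - N * ∏ p ∈ P, (1 - (ν p : ℝ) / p)|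
    ≤ 2 * N * ((∑ p ∈ P, (ν p : ℝ) / p) ^ b / b.factorial) + (1 + ∑ p ∈ P, (ν p : ℝ)) ^ b

/-- **RAP.** Rough numbers in progressions (hypotheses MP, BRU).

Proof.  `L = log Q`, `y' = exp √L ≤ yQ Q` for large `Q`. The `x` to be counted are `x = c' + q t`, `0 ≤ t < N`, `N ≤ Q/q^2 + 1`
(`c'` the first `x ≡ c` of the interval); also extend to `N = ⌊Q/q^2⌋ + 1 ≥ Q^(1/2)`. Sieve by `P = {p ∈ Ps ⌊y'⌋, p ∤ q}`, `bad p t : p ∣ c' + q t`,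
`ν p = 1`. `∏_{p ∈ P} (1 - 1/p) ≤ (q / φ(q)) ∏_{p ∈ Ps ⌊y'⌋} (1 - 1/p) ≤ C (q/φ(q)) / √L`. `b = ⌈8 log L⌉`: `∑_P 1/p ≤ (1/2) log L + C`,
`(∑)^b/b! ≤ (e ∑ / b)^b ≤ e^{-b} ≤ L^{-8}`, `(1 + y')^b ≤ exp ((√L + 1) 9 log L) ≤ Q^{1/10}`. All errors are `≤ N (q/φ(q)) L^{-1/2}`. -/
def G_RAP : Prop := G_MP → G_BRU → ∃ (C : ℝ) (Q0 : ℕ), 0 < C ∧ ∀ Q : ℕ, Q0 ≤ Q → ∀ q : ℕ, SF6 q →
  (q : ℝ) ≤ (Q : ℝ) ^ (1 / 4 : ℝ) → ∀ c : ℕ,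
    (((Ioc (Q / q) (2 * Q / q)).filter
        (fun x : ℕ => x % q = c ∧ ∀ p, p.Prime → p ∣ x → yQ Q < p)).card : ℝ)
      ≤ C * (Q / (q : ℝ) ^ 2) * (q / Nat.totient q) * (Real.log Q) ^ (-(1 / 2) : ℝ)

/-! ## 3. The range `q ≤ K log^B K` -/

/-- **CASEA.** Large smooth part (hypothesis MP; Mertens for `∑ log p / p` is `Helper69.LG.A_bound`).

Proof.  `y = yQ Q`, `κ = 48 / log y`. `q = smo y q * rou y q`, so (Rankin) the sum is at most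
`Q^(-κ/4) ∏_{5 ≤ p ≤ y} (1 + 4 p^(1+κ)/(p-2)^2) ∏_{y < p ≤ 2Q} (1 + 4p/(p-2)^2)`.
`Q^(-κ/4) = exp (-12 log Q / log y) = (log Q)^(-3)`. `(p/(p-2))^2 ≤ 1 + 12/p`; for `p ≤ y`: `p^κ ≤ 1 + e^48 κ log p`, so
`∑_{p ≤ y} 4 p^(1+κ)/(p-2)^2 ≤ ∑ 4/p + 4 e^48 κ ∑_{p ≤ y} log p / p + C ≤ ∑_{p ≤ y} 4/p + C'`. Both products together are
`≤ C exp (∑_{p ≤ 2Q} 4/p) ≤ C (log Q)^4`. -/
def G_CASEA : Prop := G_MP → ∃ (C : ℝ) (Q0 : ℕ), 0 < C ∧ ∀ Q : ℕ, Q0 ≤ Q →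
  ∑ q ∈ (Ioc Q (2 * Q)).filter (fun q => SF6 q ∧ (Q : ℝ) ^ (1 / 4 : ℝ) < (smo (yQ Q) q : ℝ)), CQ q
    ≤ C * Real.log Q

/-- **B1.** Fixed smooth part `q ≤ Q^(1/4)`, sum over the rough part `x` (hypotheses: conclusions of SQ, DOM, CLS, RAP).

Proof.  `S` = the set of the sum, `m = 2Q/q` (natural division): `x ≤ m ≤ 2x`, `m q ≤ 2Q`. For `x ∈ S`: all prime factors of `x` exceed
`y = yQ Q`, `x ≤ 2Q`, so `ω(x) ≤ log (2Q)/log y ≤ loglog Q/4 + 1` and `CQ x = (4^ω / x) ∏ (p/(p-2))^2 ≤ 8 (log Q)^(7/20) q / Q` for large `Q`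
(`log 4 / 4 = 0.3465... < 0.35`, `1/x < q/Q`). `x`, `q` are coprime (`q` is `y`-smooth). By DOM (with `q₁ = x`, `q₂ = q`) and CLS (with
`f = sq q`, `n = ⌊bound of RAP⌋`; for `c` arbitrary) the sum is `≤ 8 (log Q)^(7/20) (q/Q) * 4 n gq q q min 1 (2Q(1-r))`, and
`n ≤ C (Q/q^2) (q/φ(q)) (log Q)^(-1/2)`. -/
def G_B1 : Prop :=
  ((∀ q q' g : ℕ, Nat.Coprime q q' → sq (q * q') g = sq q g * sq q' g) ∧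
    (∀ q : ℕ, sq q 0 = gq q) ∧ (∀ q : ℕ, SF6 q → PDU q (sq q))) →
  (∀ (q₁ q₂ : ℕ) (r : ℝ), SF6 (q₁ * q₂) → Nat.Coprime q₁ q₂ → 0 ≤ r → r < 1 →
    Ab r (sq (q₁ * q₂)) ≤ CQ q₁ * Ab (r ^ q₁) (fun k => sq q₂ (q₁ * k))) →
  (∀ (q : ℕ) (f : ℕ → ℝ) (S : Finset ℕ) (m n : ℕ) (r : ℝ), Odd q → PDU q f → 0 ≤ r → r < 1 →
    (∀ x ∈ S, 1 ≤ x ∧ x ≤ m ∧ m ≤ 2 * x) → (∀ c < q, (S.filter (fun x => x % q = c)).card ≤ n) →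
    ∑ x ∈ S, Ab (r ^ x) (fun k => f (x * k)) ≤ 4 * n * f 0 * q * min 1 (m * q * (1 - r))) →
  (∃ (C : ℝ) (Q0 : ℕ), 0 < C ∧ ∀ Q : ℕ, Q0 ≤ Q → ∀ q : ℕ, SF6 q →
    (q : ℝ) ≤ (Q : ℝ) ^ (1 / 4 : ℝ) → ∀ c : ℕ,
      (((Ioc (Q / q) (2 * Q / q)).filter
          (fun x : ℕ => x % q = c ∧ ∀ p, p.Prime → p ∣ x → yQ Q < p)).card : ℝ)
        ≤ C * (Q / (q : ℝ) ^ 2) * (q / Nat.totient q) * (Real.log Q) ^ (-(1 / 2) : ℝ)) →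
  ∃ (C : ℝ) (Q0 : ℕ), 0 < C ∧ ∀ Q : ℕ, Q0 ≤ Q → ∀ (q : ℕ) (r : ℝ), SF6 q →
    (q : ℝ) ≤ (Q : ℝ) ^ (1 / 4 : ℝ) → (∀ p, p.Prime → p ∣ q → (p : ℝ) ≤ yQ Q) → 0 ≤ r → r < 1 →
      ∑ x ∈ (Ioc (Q / q) (2 * Q / q)).filter
          (fun x : ℕ => SF6 x ∧ ∀ p, p.Prime → p ∣ x → yQ Q < p), Ab r (sq (x * q))
        ≤ C * (Real.log Q) ^ (-(3 / 20) : ℝ) * (gq q * (q / Nat.totient q)) * min 1 (2 * Q * (1 - r))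

/-- **B2.** Sum over the smooth parts (hypothesis MP).

Proof.  `≤ ∏_{5 ≤ p ≤ Q} (1 + (2/(p-2)) (p/(p-1)))`, and `(2/(p-2)) (p/(p-1)) ≤ 2/p + 20/p^2`. -/
def G_B2 : Prop := G_MP → ∃ C : ℝ, 0 < C ∧ ∀ Q : ℕ, 3 ≤ Q →
  ∑ q ∈ (Icc 1 Q).filter SF6, gq q * (q / Nat.totient q) ≤ C * Real.log Q ^ 2

/-- **DYAD.** A dyadic block (hypotheses: conclusions of TRIV, CASEA, B1, B2).

Proof.  Split `q` by `s = smo y q > Q^(1/4)` (TRIV, CASEA: the sum is `≤ C log Q min 1 (2Q(1-r))`, since `q ≤ 2Q`) or `≤`; in the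
second case `q = x s`, `s = smo y q`, `x = rou y q`, both squarefree and prime to 6, `x ∈ (Q/s, 2Q/s]`; sum over `x` by B1, over `s` by B2. -/
def G_DYAD : Prop :=
  (∀ (q : ℕ) (r : ℝ), SF6 q → 0 ≤ r → r < 1 →
    0 ≤ Ab r (sq q) ∧ Ab r (sq q) ≤ CQ q * min 1 (q * (1 - r))) →
  (∃ (C : ℝ) (Q0 : ℕ), 0 < C ∧ ∀ Q : ℕ, Q0 ≤ Q →
    ∑ q ∈ (Ioc Q (2 * Q)).filter (fun q => SF6 q ∧ (Q : ℝ) ^ (1 / 4 : ℝ) < (smo (yQ Q) q : ℝ)), CQ q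
      ≤ C * Real.log Q) →
  (∃ (C : ℝ) (Q0 : ℕ), 0 < C ∧ ∀ Q : ℕ, Q0 ≤ Q → ∀ (q : ℕ) (r : ℝ), SF6 q →
    (q : ℝ) ≤ (Q : ℝ) ^ (1 / 4 : ℝ) → (∀ p, p.Prime → p ∣ q → (p : ℝ) ≤ yQ Q) → 0 ≤ r → r < 1 →
      ∑ x ∈ (Ioc (Q / q) (2 * Q / q)).filter
          (fun x : ℕ => SF6 x ∧ ∀ p, p.Prime → p ∣ x → yQ Q < p), Ab r (sq (x * q))
        ≤ C * (Real.log Q) ^ (-(3 / 20) : ℝ) * (gq q * (q / Nat.totient q)) *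
          min 1 (2 * Q * (1 - r))) →
  (∃ C : ℝ, 0 < C ∧ ∀ Q : ℕ, 3 ≤ Q →
    ∑ q ∈ (Icc 1 Q).filter SF6, gq q * (q / Nat.totient q) ≤ C * Real.log Q ^ 2) →
  ∃ (C : ℝ) (Q0 : ℕ), 0 < C ∧ ∀ Q : ℕ, Q0 ≤ Q → ∀ r : ℝ, 0 ≤ r → r < 1 →
    ∑ q ∈ (Ioc Q (2 * Q)).filter SF6, Ab r (sq q)
      ≤ C * Real.log Q ^ (19 / 10 : ℝ) * min 1 (2 * Q * (1 - r))

/-- **LOW.** (hypotheses: conclusions of TRIV, DYAD).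

Proof.  `M = ⌊K log^B K⌋`, `r = 1 - 1/K`. Cover `[1, M]` by `{1}` and `(2^j, 2^(j+1)]`, `2^j ≤ M`. The terms with `2^j < Q0` give
`O(1)` (TRIV). For `Q0 ≤ 2^j ≤ K`: `∑ C (log K)^1.9 2^(j+1)/K ≤ 4 C (log K)^1.9`. For `K < 2^j ≤ M` there are at most
`2 B loglog K + 2` values of `j` and `log 2^j ≤ 2 log K`. Total `O((log K)^1.9 loglog K)`. -/
def G_LOW : Prop :=
  (∀ (q : ℕ) (r : ℝ), SF6 q → 0 ≤ r → r < 1 →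
    0 ≤ Ab r (sq q) ∧ Ab r (sq q) ≤ CQ q * min 1 (q * (1 - r))) →
  (∃ (C : ℝ) (Q0 : ℕ), 0 < C ∧ ∀ Q : ℕ, Q0 ≤ Q → ∀ r : ℝ, 0 ≤ r → r < 1 →
    ∑ q ∈ (Ioc Q (2 * Q)).filter SF6, Ab r (sq q)
      ≤ C * Real.log Q ^ (19 / 10 : ℝ) * min 1 (2 * Q * (1 - r))) →
  ∀ (B : ℕ) (ε : ℝ), 0 < ε → ∃ K0 : ℝ, ∀ K : ℝ, K0 ≤ K →
    ∑ q ∈ (Icc 1 ⌊K * Real.log K ^ B⌋₊).filter SF6, Ab (1 - 1 / K) (sq q) ≤ ε * Real.log K ^ 2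

/-! ## 4. The tail `q > K log^B K` -/

/-- **OMG.** Moments of `ω` with exponential weights (hypothesis MP).

Proof.  `k^{ω(n)} ≤ ∑_{d ∣ n, d squarefree} (k-1)^{ω(d)}`, so `∑_{n ≤ N} k^{ω(n)} ≤ N ∑_{d ≤ N} μ^2(d) (k-1)^{ω(d)} / d ≤
N ∏_{p ≤ N} (1 + (k-1)/p) ≤ C N (log (N+1))^(k-1)` (MP for `p ≥ 5`, the primes 2, 3 give a constant). Group
`j K ≤ n < (j+1) K`: `(1 - 1/K)^n ≤ e^{-j}`, so the sum is `≤ C ∑_j e^{-j} (j+1) K (log ((j+1) K) + 1)^k`, and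
`log ((j+1)K) + 1 ≤ (j+2) (log K + 2)`. (`K ≥ 3`.) -/
def G_OMG : Prop := G_MP → ∀ k : ℕ, 1 ≤ k → ∃ C : ℝ, 0 < C ∧ ∀ K : ℝ, 3 ≤ K → ∀ N : ℕ,
  ∑ n ∈ Icc 1 N, (1 - 1 / K) ^ n * (k : ℝ) ^ n.primeFactors.card ≤ C * K * Real.log K ^ k

/-- **SUMW.** The decomposition.

Proof.  `1 + sm p g = wp p g * (p / (p-2))`, `∏_{p ∈ Ps L} (1 + sm p g) = ∑_{J ⊆ Ps L} ∏_J sm p g`, and `J ↦ ∏_J p` is a bijection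
of the subsets of `Ps L` to the divisors of `PP L` (squarefree number; `Nat.sum_divisors_filter_squarefree` or induction over `Ps L`).
`PL L 0 = 1`. -/
def G_SUMW : Prop := ∀ L g : ℕ, PL L g = Gz L * ∑ q ∈ (PP L).divisors, sq q g

/-- **DVL.** The divisors of `PP L`.

Proof.  A divisor of the squarefree number `PP L` is squarefree with prime factors in `Ps L`. -/
def G_DVL : Prop := ∀ L : ℕ, (∀ q ∈ (PP L).divisors, SF6 q ∧ 1 ≤ q) ∧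
  (∀ q : ℕ, 1 ≤ q → q ≤ L → SF6 q → q ∈ (PP L).divisors)

/-- **RNK.** Pointwise bound of the tail.

Proof.  `∑_{q ∣ PP L, q > M} |sq q g| ≤ M⁻¹ ∑_{q ∣ PP L} q |sq q g| = M⁻¹ ∏_{p ∈ Ps L} (1 + p |sm p g|)` and for `g ≥ 1`:
`1 + p |sm p g| ≤ 5` if `p ∣ g` (`1 + 2p/(p-2)`, `p ≥ 5`), `≤ 2` if `p ∣ 3g-1` or `p ∣ 3g+1` (`p (p-4) ≤ (p-2)^2`), and
`≤ 1 + 4p/(p-2)^2 ≤ 1 + 12/p` otherwise. -/
def G_RNK : Prop := ∀ (L g : ℕ) (M : ℝ), 0 < M → 1 ≤ g →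
  ∑ q ∈ (PP L).divisors.filter (fun q : ℕ => M < (q : ℝ)), |sq q g|
    ≤ M⁻¹ * (∏ p ∈ Ps L, (1 + 12 / (p : ℝ))) * 5 ^ g.primeFactors.card *
      2 ^ (3 * g - 1).primeFactors.card * 2 ^ (3 * g + 1).primeFactors.card

/-- **TAIL.** (hypotheses: MP, conclusions of OMG, RNK).

Proof.  `B = 140`, `M = K (log K)^B`. `∏ (1 + 12/p) ≤ C (log L)^12 ≤ C' (log K)^12`. `5^a 2^b 2^c ≤ 125^a + 8^b + 8^c`. With `r = 1 - 1/K`,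
OMG (`k = 125`) gives `∑ r^g 125^{ω(g)} ≤ C K (log K)^125`; for the others put `n = 3g ± 1`, `r^g = (r^(1/3))^(3g)`, `r^(1/3) ≤ 1 - 1/(3K)`,
and OMG with `3K`, `k = 8` (each `n` occurs once): `≤ C K (log K)^8`. Total `≤ C (log K)^(-140+12+125)`. -/
def G_TAIL : Prop := G_MP →
  (∀ k : ℕ, 1 ≤ k → ∃ C : ℝ, 0 < C ∧ ∀ K : ℝ, 3 ≤ K → ∀ N : ℕ,
    ∑ n ∈ Icc 1 N, (1 - 1 / K) ^ n * (k : ℝ) ^ n.primeFactors.card ≤ C * K * Real.log K ^ k) →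
  G_RNK →
  ∀ (A : ℕ) (ε : ℝ), 0 < ε → ∃ K0 : ℝ, ∀ K : ℝ, K0 ≤ K → ∀ L : ℕ, K ≤ (L : ℝ) → (L : ℝ) ≤ K ^ A →
    ∀ N : ℕ, ∑ g ∈ Icc 1 N, (1 - 1 / K) ^ g *
      ∑ q ∈ (PP L).divisors.filter (fun q : ℕ => K * Real.log K ^ 140 < (q : ℝ)), |sq q g| ≤ ε

/-! ## 5. Constants -/

/-- `b(q) = q * gq q` on the squarefree numbers prime to 6 -/
noncomputable def bq (n : ℕ) : ℝ := if SF6 n then (n : ℝ) * gq n else 0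

/-- **TAU.** `∑_{m ≤ x} τ(m)/m`, `τ` the number of divisors.

Proof.  `= ∑_{a ≤ x} (1/a) H(x/a)`, `H(y) = ∑_{b ≤ y} 1/b = log y + O(1)` (`y ≥ 1`), and `∑_{a ≤ x} (1/a) (log x - log a) =
log^2 x - (1/2) log^2 x + O(1 + log x)` (comparison with the integral of `log t / t`, or summation by parts). -/
def G_TAU : Prop :=
  Tendsto (fun x : ℝ => (∑ m ∈ Icc 1 ⌊x⌋₊, (m.divisors.card : ℝ) / m) / Real.log x ^ 2) atTop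
    (𝓝 (1 / 2)) ∧
  ∃ C : ℝ, 0 < C ∧ ∀ x : ℝ, 1 ≤ x →
    ∑ m ∈ Icc 1 ⌊x⌋₊, (m.divisors.card : ℝ) / m ≤ C * (1 + Real.log x) ^ 2

/-- **HCV.** `b = τ * h`.

Proof.  `h = b * μ * μ` as arithmetic functions (`ζ * μ = 1`, `τ = ζ * ζ`), multiplicative. `h(p) = b(p) - 2`, `h(p^2) = 1 - 2 b(p)`,
`h(p^3) = b(p)`, `h(p^k) = 0` for `k ≥ 4`; `b(2) = b(3) = 0`, `b(p) = 2p/(p-2)` for `p ≥ 5`. `|h(p)| ≤ 10/p`, `|h(p^2)|, |h(p^3)| ≤ 8`, so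
`∑_p (|h(p)|/p + |h(p^2)|/p^2 + |h(p^3)|/p^3) < ∞` and `∑ |h(n)|/n < ∞` (bounded partial sums by
`EulerProduct.summable_and_hasSum_smoothNumbers_prod_primesBelow_tsum`). Euler product
(`EulerProduct.eulerProduct`): partial products `∏_{p < n} (1 - 1/p)^2 (1 + b(p)/p)`. -/
def G_HCV : Prop := ∃ h : ℕ → ℝ,
  (∀ q : ℕ, 1 ≤ q → bq q = ∑ d ∈ q.divisors, h d * ((q / d).divisors.card : ℝ)) ∧
  Summable (fun n : ℕ => |h n| / n) ∧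
  Tendsto (fun n : ℕ => ∏ p ∈ (range n).filter Nat.Prime, ((1 - 1 / (p : ℝ)) ^ 2 * (1 + bq p / p)))
    atTop (𝓝 (∑' n : ℕ, h n / n))

/-- **MEAN.** (hypotheses TAU, HCV).

Proof.  `GX X = ∑_{q ≤ X} bq q / q = ∑_n (h n / n) T(X/n)`, `T(x) = ∑_{m ≤ x} τ(m)/m` (zero for `x < 1`). Divide by `log^2 X` and let `X → ∞`
(dominated convergence for series, `tendsto_tsum_of_dominated_convergence`: `T(X/n)/log^2 X → 1/2` and it is `≤ 4C` for `X ≥ 3`). -/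
def G_MEAN : Prop := G_TAU → G_HCV → ∃ κ : ℝ,
  Tendsto (fun X : ℝ => GX X / Real.log X ^ 2) atTop (𝓝 (κ / 2)) ∧
  Tendsto (fun n : ℕ => ∏ p ∈ (range n).filter Nat.Prime, ((1 - 1 / (p : ℝ)) ^ 2 * (1 + bq p / p)))
    atTop (𝓝 κ)

/-- **E2.** (hypothesis: conclusion of MEAN).

Proof.  For `p ≥ 5`: `1 + bq p / p = 1/(1 - 2/p)` and `(1-1/p)^2/(1-2/p) ≥ 1`; `bq 2 = bq 3 = 0`. So the products tend to `κ ≥ 1/9 > 0` and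
`(∏_{p ≤ z} (1-1/p))^2 / Gz z → κ`. Mertens (`Helper56.ax_sub_loglog_tendsto`, `∏_{p ≤ z} (1-1/p) = exp (- ax z)`):
`(∏_{p ≤ z} (1-1/p)) log z → e^{-γ}`. Hence `Gz z log^2 z → e^{-2γ}/κ`, and `GX K / log^2 K → κ/2`. -/
def G_E2 : Prop := (∃ κ : ℝ, Tendsto (fun X : ℝ => GX X / Real.log X ^ 2) atTop (𝓝 (κ / 2)) ∧
  Tendsto (fun n : ℕ => ∏ p ∈ (range n).filter Nat.Prime, ((1 - 1 / (p : ℝ)) ^ 2 * (1 + bq p / p)))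
    atTop (𝓝 κ)) → StmtE2

/-- **GZU.** Upper bound of the density (hypothesis MP).

Proof.  `1 - 2/p ≤ (1 - 1/p)^2` and MP (third statement). -/
def G_GZU : Prop := G_MP → ∃ C : ℝ, 0 < C ∧ ∀ L : ℕ, 3 ≤ L → Gz L ≤ C / Real.log L ^ 2

end Pool.Agent.Helper22.TB
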