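import Pool.Agent.Helper22.TB.Asm
import Pool.Agent.Helper22.TB.SUMW
import Pool.Agent.Helper22.TB.CMP
import Pool.Agent.Helper6.TB.KER
import Pool.Agent.Helper35.TB.ABL
import Pool.Agent.Helper86.TB.ABM
import Pool.Agent.Helper57.TB.PDC
import Pool.Agent.Helper28.TB.POS
import Pool.Agent.Helper13.TB.SIG
import Pool.Agent.Helper36.TB.SQ
import Pool.Agent.Helper44.TB.DOM
import Pool.Agent.Helper59.TB.TRIV
import Pool.Agent.Helper53.TB.AVG
import Pool.Agent.Helper27.TB.CLS
import Pool.Agent.Helper96.TB.MP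
import Pool.Agent.Helper10.TB.BRU
import Pool.Agent.Helper77.TB.RAP
import Pool.Agent.Helper65.TB.CASEA
import Pool.Agent.Helper46.TB.B1
import Pool.Agent.Helper65.TB.B2
import Pool.Agent.Helper35.TB.DYAD
import Pool.Agent.Helper6.TB.LOW
import Pool.Agent.Helper6.TB.OMG
import Pool.Agent.Helper57.TB.RNK
import Pool.Agent.Helper72.TB.TAIL
import Pool.Agent.Helper6.TB.TAU
import Pool.Agent.Helper88.TB.HCV
import Pool.Agent.Helper31.TB.MEAN
import Pool.Agent.Helper57.TB.E2
import Pool.Agent.Helper14.TB.GZU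
import Pool.Agent.Helper33.TB.Goals

/-!
# Project TB, part E: final statements `StmtE1`, `StmtE2`
-/

set_option autoImplicit false

open Finset Filter Topology
open Pool.Agent.Helper90.Twin (Ps Gz)

namespace Pool.Agent.Helper22.TB

theorem stmtE1 : StmtE1 := by
  have ker : G_KER := Helper6.TB.gKER
  have abl : G_ABL := Helper35.TB.gABL
  have abm : G_ABM := Helper86.TB.gABM
  have pdc : G_PDC := Helper57.TB.gPDC
  have sig : G_SIG := Helper13.TB.gSIG
  have pos := Helper28.TB.gPOS ker abl pdc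
  have sq := Helper36.TB.gSQ pdc sig
  have dom := Helper44.TB.gDOM abl abm pdc sig pos sq
  have triv := Helper59.TB.gTRIV ker pos pdc sq dom
  have avg := Helper53.TB.gAVG abl abm ker
  have cmp := gCMP ker
  have cls := Helper27.TB.gCLS abl ker pdc avg cmp
  have mp : G_MP := Helper96.TB.gMP
  have rap := Helper77.TB.gRAP mp Helper10.TB.gBRU
  have casea := Helper65.TB.gCASEA mp
  have b1 := Helper46.TB.gB1 sq dom cls rap
  have b2 := Helper65.TB.gB2 mp
  have dyad := Helper35.TB.gDYAD triv casea b1 b2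
  have low := Helper6.TB.gLOW triv dyad
  have omg := Helper6.TB.gOMG mp
  have tail := Helper72.TB.gTAIL mp omg Helper57.TB.gRNK
  have gzu := Helper14.TB.gGZU mp
  obtain ⟨κ, hκ, -⟩ := Helper31.TB.gMEAN Helper6.TB.gTAU Helper88.TB.gHCV
  exact asm_E1 abl pdc gSUMW gDVL sq triv low tail gzu ⟨κ / 2, hκ⟩

theorem stmtE2 : StmtE2 := Helper57.TB.gE2 (Helper31.TB.gMEAN Helper6.TB.gTAU Helper88.TB.gHCV)

/-! ### The interface of helper33 -/

theorem wp_eq (p h : ℕ) : Helper33.TB.wp p h = wp p h := by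
  unfold Helper33.TB.wp wp
  simp only [or_comm]

theorem PL_eq (L h : ℕ) : Helper33.TB.PL L h = PL L h := by
  unfold Helper33.TB.PL PL
  simp only [wp_eq]

theorem GX_eq (K : ℝ) : Helper33.TB.GX ⌊K⌋₊ = GX K := by
  unfold Helper33.TB.GX GX gq
  apply Finset.sum_congr
  · ext q
    simp [SF6]
  · intro _ _
    rfl

theorem e1_33 : Helper33.TB.StmtE1 := by
  intro A ε hA hε
  obtain ⟨K0, h⟩ := stmtE1 ε hε A hA
  refine ⟨K0, fun K L hK h3 hL => ?_⟩
  have := h K hK L h3 hL
  rw [GX_eq]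
  simp only [PL_eq, ← mul_assoc]
  exact this

theorem e2_33 : Helper33.TB.StmtE2 := by
  intro ε hε
  obtain ⟨N, h⟩ := stmtE2 ε hε
  refine ⟨N, fun K z hK hz => ?_⟩
  have := h K hK z hz
  rw [GX_eq, neg_mul]
  exact this

end Pool.Agent.Helper22.TB
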