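import Pool.Agent.Helper22.TB.Goals

/-!
# Project TB, part E: assembly of `StmtE1`
-/

set_option autoImplicit false

open Finset Filter Topology
open Pool.Agent.Helper90.Twin (Ps Gz)
open scoped Classical

namespace Pool.Agent.Helper22.TB

theorem summ {f : ℕ → ℝ} (hf : Bd f) {r : ℝ} (h0 : 0 ≤ r) (h1 : r < 1) :
    Summable (fun g : ℕ => (-1 : ℝ) ^ (g + 1) * f (g + 1) * r ^ (g + 1)) := by
  obtain ⟨B, hB⟩ := hf
  have hg : Summable (fun g : ℕ => |B| * r ^ (g + 1)) := by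
    apply Summable.mul_left
    exact (summable_geometric_of_lt_one h0 h1).comp_injective (add_left_injective 1)
  refine Summable.of_norm_bounded hg ?_
  intro g
  rw [Real.norm_eq_abs, abs_mul, abs_mul, abs_pow, abs_neg, abs_one, one_pow, one_mul, abs_pow,
    abs_of_nonneg h0]
  exact mul_le_mul_of_nonneg_right ((hB _).trans (le_abs_self B)) (by positivity)

/-- the sum over many `q` of the off-diagonal parts -/
theorem tail_sum {r : ℝ} (h0 : 0 ≤ r) (h1 : r < 1) (S : Finset ℕ) (hS : ∀ q ∈ S, Bd (sq q)) {ε : ℝ}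
    (h : ∀ N : ℕ, ∑ g ∈ Icc 1 N, r ^ g * ∑ q ∈ S, |sq q g| ≤ ε) :
    |∑ q ∈ S, ∑' g : ℕ, (-1 : ℝ) ^ (g + 1) * sq q (g + 1) * r ^ (g + 1)| ≤ ε := by
  have ht : Tendsto (fun N : ℕ => ∑ q ∈ S, ∑ g ∈ range N,
      (-1 : ℝ) ^ (g + 1) * sq q (g + 1) * r ^ (g + 1)) atTop
      (𝓝 (∑ q ∈ S, ∑' g : ℕ, (-1 : ℝ) ^ (g + 1) * sq q (g + 1) * r ^ (g + 1))) := by
    apply tendsto_finsetSum
    intro q hq
    exact (summ (hS q hq) h0 h1).hasSum.tendsto_sum_nat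
  refine le_of_tendsto ht.abs (Eventually.of_forall ?_)
  intro N
  rw [Finset.sum_comm]
  refine le_trans ?_ (h N)
  refine (Finset.abs_sum_le_sum_abs _ _).trans ?_
  have hI : ∑ g ∈ Icc 1 N, r ^ g * ∑ q ∈ S, |sq q g|
      = ∑ g ∈ range N, r ^ (g + 1) * ∑ q ∈ S, |sq q (g + 1)| := by
    rw [Finset.range_eq_Ico, Finset.sum_Ico_add' (fun g => r ^ g * ∑ q ∈ S, |sq q g|) 0 N 1]
    rfl
  rw [hI]
  apply Finset.sum_le_sum
  intro g _
  refine (Finset.abs_sum_le_sum_abs _ _).trans ?_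
  rw [Finset.mul_sum]
  apply Finset.sum_le_sum
  intro q _
  rw [abs_mul, abs_mul, abs_pow, abs_neg, abs_one, one_pow, one_mul, abs_pow, abs_of_nonneg h0,
    mul_comm]

theorem PL_zero (L : ℕ) : PL L 0 = 1 := by
  unfold PL wp
  simp

theorem gz_pos (L : ℕ) : 0 < Gz L := by
  unfold Gz Pool.Agent.Helper90.Twin.GG
  apply Finset.prod_pos
  intro p hp
  have h5 : 5 ≤ p := by
    have := (Finset.mem_filter.1 hp).1
    exact (Finset.mem_Icc.1 this).1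
  have h5' : (5 : ℝ) ≤ p := by exact_mod_cast h5
  have : 2 / (p : ℝ) < 1 := by
    rw [div_lt_one (by linarith)]
    linarith
  linarith

/-- the exact identity -/
theorem main_id (abl : G_ABL) (sumw : G_SUMW) (sq0 : ∀ q : ℕ, sq q 0 = gq q)
    {L : ℕ} (hbd : ∀ q ∈ (PP L).divisors, Bd (sq q)) {r : ℝ} (h0 : 0 < r) (h1 : r < 1)
    (M : ℝ) :
    (∑' h : ℕ, (-1 : ℝ) ^ (h + 1) * r ^ h * PL L (h + 1))
      = Gz L / (2 * r) * ((∑ q ∈ (PP L).divisors.filter (fun q : ℕ => ¬ M < (q : ℝ)), Ab r (sq q))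
          - (∑ q ∈ (PP L).divisors.filter (fun q : ℕ => ¬ M < (q : ℝ)), gq q)
          + 2 * ∑ q ∈ (PP L).divisors.filter (fun q : ℕ => M < (q : ℝ)),
              ∑' g : ℕ, (-1 : ℝ) ^ (g + 1) * sq q (g + 1) * r ^ (g + 1)) := by
  have hG := gz_pos L
  set S1 := ∑' h : ℕ, (-1 : ℝ) ^ (h + 1) * r ^ h * PL L (h + 1) with hS1
  have e1 : Ab r (PL L) = 1 + 2 * r * S1 := by
    have e0 : ∑' g : ℕ, (-1 : ℝ) ^ (g + 1) * PL L (g + 1) * r ^ (g + 1) = r * S1 := by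
      rw [hS1, ← tsum_mul_left]
      apply tsum_congr
      intro h
      rw [pow_succ r h]
      ring
    unfold Ab
    rw [PL_zero, e0]
    ring
  have e2 : Ab r (PL L) = Gz L * ∑ q ∈ (PP L).divisors, Ab r (sq q) := by
    have : PL L = fun g => ∑ q ∈ (PP L).divisors, Gz L * sq q g := by
      funext g
      rw [sumw L g, Finset.mul_sum]
    rw [this, abl ℕ (PP L).divisors (fun _ => Gz L) sq r h0.le h1 hbd, Finset.mul_sum]
  have e3 : Gz L * ∑ q ∈ (PP L).divisors, gq q = 1 := by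
    have := sumw L 0
    rw [PL_zero] at this
    simp only [sq0] at this
    exact this.symm
  have e4 : ∑ q ∈ (PP L).divisors, Ab r (sq q)
      = (∑ q ∈ (PP L).divisors.filter (fun q : ℕ => ¬ M < (q : ℝ)), Ab r (sq q))
        + ∑ q ∈ (PP L).divisors.filter (fun q : ℕ => M < (q : ℝ)), Ab r (sq q) := by
    rw [add_comm]
    exact (Finset.sum_filter_add_sum_filter_not _ _ _).symm
  have e5 : ∑ q ∈ (PP L).divisors, gq q
      = (∑ q ∈ (PP L).divisors.filter (fun q : ℕ => ¬ M < (q : ℝ)), gq q)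
        + ∑ q ∈ (PP L).divisors.filter (fun q : ℕ => M < (q : ℝ)), gq q := by
    rw [add_comm]
    exact (Finset.sum_filter_add_sum_filter_not _ _ _).symm
  have e6 : ∑ q ∈ (PP L).divisors.filter (fun q : ℕ => M < (q : ℝ)), Ab r (sq q)
      = (∑ q ∈ (PP L).divisors.filter (fun q : ℕ => M < (q : ℝ)), gq q)
        + 2 * ∑ q ∈ (PP L).divisors.filter (fun q : ℕ => M < (q : ℝ)),
              ∑' g : ℕ, (-1 : ℝ) ^ (g + 1) * sq q (g + 1) * r ^ (g + 1) := by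
    rw [Finset.mul_sum, ← Finset.sum_add_distrib]
    apply Finset.sum_congr rfl
    intro q _
    unfold Ab
    rw [sq0]
  have hr2 : 2 * r ≠ 0 := by positivity
  have e7 : 2 * r * S1 = Gz L * ∑ q ∈ (PP L).divisors, Ab r (sq q) - 1 := by linarith
  rw [e4, e6] at e7
  rw [e5] at e3
  have : S1 = (Gz L * ((∑ q ∈ (PP L).divisors.filter (fun q : ℕ => ¬ M < (q : ℝ)), Ab r (sq q))
        + ((∑ q ∈ (PP L).divisors.filter (fun q : ℕ => M < (q : ℝ)), gq q)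
        + 2 * ∑ q ∈ (PP L).divisors.filter (fun q : ℕ => M < (q : ℝ)),
              ∑' g : ℕ, (-1 : ℝ) ^ (g + 1) * sq q (g + 1) * r ^ (g + 1))) - 1) / (2 * r) := by
    rw [← e7]
    field_simp
  rw [this, ← e3]
  ring

/-- the elementary final estimate -/
theorem fin_est {G C κ Λ ε₁ r M1 K1 E T Kr : ℝ} (hG0 : 0 < G) (hG : G ≤ C / Λ ^ 2) (hC : 0 < C)
    (hΛ : 1 ≤ Λ) (hr : 1 / 2 ≤ r) (hr1 : r < 1) (hKr : 1 - r = 1 / Kr) (hKr0 : 0 < Kr)
    (hE0 : 0 ≤ E) (hE : E ≤ ε₁ * Λ ^ 2) (hT : |T| ≤ ε₁) (hMK : |M1 - K1| ≤ ε₁ * Λ ^ 2)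
    (hK1 : |K1| ≤ (|κ| + 1) * Λ ^ 2) (hε : 0 < ε₁) (hKr1 : (|κ| + 1) / Kr ≤ ε₁) :
    |G / (2 * r) * (E - M1 + 2 * T) + G * K1 / 2| ≤ C * (5 * ε₁) := by
  have hr0 : 0 < r := by linarith
  have e1 : G / (2 * r) * (E - M1 + 2 * T) + G * K1 / 2
      = G / (2 * r) * (E - (M1 - K1) + 2 * T - (1 - r) * K1) := by
    field_simp
    ring
  rw [e1, abs_mul]
  have hΛ2 : 1 ≤ Λ ^ 2 := by nlinarith
  have h1 : |E - (M1 - K1) + 2 * T - (1 - r) * K1| ≤ 5 * ε₁ * Λ ^ 2 := by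
    have a1 : |(1 - r) * K1| ≤ ε₁ * Λ ^ 2 := by
      rw [abs_mul, hKr, abs_of_nonneg (by positivity)]
      calc 1 / Kr * |K1| ≤ 1 / Kr * ((|κ| + 1) * Λ ^ 2) :=
            mul_le_mul_of_nonneg_left hK1 (by positivity)
        _ = (|κ| + 1) / Kr * Λ ^ 2 := by ring
        _ ≤ ε₁ * Λ ^ 2 := mul_le_mul_of_nonneg_right hKr1 (by positivity)
    have a2 : |2 * T| ≤ 2 * (ε₁ * Λ ^ 2) := by
      rw [abs_mul, abs_of_pos (by norm_num : (0:ℝ) < 2)]
      have : ε₁ ≤ ε₁ * Λ ^ 2 := by nlinarith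
      linarith
    have a3 : |E| ≤ ε₁ * Λ ^ 2 := by rwa [abs_of_nonneg hE0]
    calc |E - (M1 - K1) + 2 * T - (1 - r) * K1|
        ≤ |E - (M1 - K1) + 2 * T| + |(1 - r) * K1| := abs_sub _ _
      _ ≤ |E - (M1 - K1)| + |2 * T| + |(1 - r) * K1| := by
          gcongr
          exact abs_add_le _ _
      _ ≤ |E| + |M1 - K1| + |2 * T| + |(1 - r) * K1| := by
          gcongr
          exact abs_sub _ _
      _ ≤ _ := by linarith
  have h2 : |G / (2 * r)| ≤ C / Λ ^ 2 := by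
    rw [abs_of_pos (by positivity)]
    calc G / (2 * r) ≤ G / 1 := by
          apply div_le_div_of_nonneg_left hG0.le one_pos
          linarith
      _ = G := div_one G
      _ ≤ _ := hG
  calc |G / (2 * r)| * |E - (M1 - K1) + 2 * T - (1 - r) * K1|
      ≤ (C / Λ ^ 2) * (5 * ε₁ * Λ ^ 2) := mul_le_mul h2 h1 (abs_nonneg _) (by positivity)
    _ = C * (5 * ε₁) := by
        field_simp

/-- **StmtE1** from the goals -/
theorem asm_E1 (abl : G_ABL) (pdc : G_PDC) (sumw : G_SUMW) (dvl : G_DVL)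
    (sqc : (∀ q q' g : ℕ, Nat.Coprime q q' → sq (q * q') g = sq q g * sq q' g) ∧
      (∀ q : ℕ, sq q 0 = gq q) ∧ (∀ q : ℕ, SF6 q → PDU q (sq q)))
    (triv : ∀ (q : ℕ) (r : ℝ), SF6 q → 0 ≤ r → r < 1 →
      0 ≤ Ab r (sq q) ∧ Ab r (sq q) ≤ CQ q * min 1 (q * (1 - r)))
    (low : ∀ (B : ℕ) (ε : ℝ), 0 < ε → ∃ K0 : ℝ, ∀ K : ℝ, K0 ≤ K →
      ∑ q ∈ (Icc 1 ⌊K * Real.log K ^ B⌋₊).filter SF6, Ab (1 - 1 / K) (sq q) ≤ ε * Real.log K ^ 2)
    (tail : ∀ (A : ℕ) (ε : ℝ), 0 < ε → ∃ K0 : ℝ, ∀ K : ℝ, K0 ≤ K → ∀ L : ℕ, K ≤ (L : ℝ) →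
      (L : ℝ) ≤ K ^ A → ∀ N : ℕ, ∑ g ∈ Icc 1 N, (1 - 1 / K) ^ g *
        ∑ q ∈ (PP L).divisors.filter (fun q : ℕ => K * Real.log K ^ 140 < (q : ℝ)), |sq q g| ≤ ε)
    (gzu : ∃ C : ℝ, 0 < C ∧ ∀ L : ℕ, 3 ≤ L → Gz L ≤ C / Real.log L ^ 2)
    (mean : ∃ κ : ℝ, Tendsto (fun X : ℝ => GX X / Real.log X ^ 2) atTop (𝓝 κ)) : StmtE1 := by
  intro ε hε A hA
  obtain ⟨C, hC, hGz⟩ := gzu
  obtain ⟨κ, hκ⟩ := mean
  set ε₁ : ℝ := ε / (5 * C) with hε₁
  have hε₁0 : 0 < ε₁ := by positivity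
  obtain ⟨K1, hK1⟩ := low 140 ε₁ hε₁0
  obtain ⟨K2, hK2⟩ := tail A ε₁ hε₁0
  set ε₂ : ℝ := min 1 (ε₁ / (8 * (|κ| + 2))) with hε₂
  have hε₂0 : 0 < ε₂ := by positivity
  -- asymptotics
  have hlogM : Tendsto (fun K : ℝ => Real.log (K * Real.log K ^ 140) / Real.log K) atTop (𝓝 1) := by
    have h1 : Tendsto (fun K : ℝ => 1 + 140 * (Real.log (Real.log K) / Real.log K)) atTop
        (𝓝 (1 + 140 * 0)) := by
      apply Tendsto.const_add
      apply Tendsto.const_mul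
      exact (Real.isLittleO_log_id_atTop.tendsto_div_nhds_zero).comp Real.tendsto_log_atTop
    rw [mul_zero, add_zero] at h1
    refine h1.congr' ?_
    filter_upwards [eventually_gt_atTop 0,
      Real.tendsto_log_atTop.eventually (eventually_gt_atTop (1 : ℝ))] with K hK hl
    have hl0 : Real.log K ≠ 0 := by linarith
    rw [Real.log_mul hK.ne' (by positivity), Real.log_pow]
    push_cast
    field_simp
  have hMtop : Tendsto (fun K : ℝ => K * Real.log K ^ 140) atTop atTop := by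
    apply tendsto_atTop_mono' atTop _ tendsto_id
    filter_upwards [eventually_gt_atTop 0,
      Real.tendsto_log_atTop.eventually (eventually_ge_atTop (1 : ℝ))] with K hK hl
    have := one_le_pow₀ hl (n := 140)
    simp only [id]
    nlinarith
  have hM3 : ∀ᶠ K : ℝ in atTop, K * Real.log K ^ 140 ≤ K ^ 3 := by
    have h1 : Tendsto (fun K : ℝ => Real.log K ^ 140 / K) atTop (𝓝 0) := by
      have := Real.isLittleO_pow_log_id_atTop (n := 140)
      exact this.tendsto_div_nhds_zero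
    filter_upwards [h1.eventually (gt_mem_nhds one_pos), eventually_ge_atTop 1] with K h hK
    rw [div_lt_one (by linarith)] at h
    calc K * Real.log K ^ 140 ≤ K * K := by
          apply mul_le_mul_of_nonneg_left h.le (by linarith)
      _ ≤ K ^ 3 := by nlinarith [mul_nonneg (mul_nonneg (by linarith : (0:ℝ) ≤ K) (by linarith : (0:ℝ) ≤ K)) (by linarith : (0:ℝ) ≤ K - 1)]
  have hκM := (hκ.comp hMtop)
  have hsq : Tendsto (fun K : ℝ => (Real.log (K * Real.log K ^ 140) / Real.log K) ^ 2) atTop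
      (𝓝 (1 ^ 2)) := hlogM.pow 2
  have hdiff : Tendsto (fun K : ℝ => (GX (K * Real.log K ^ 140) - GX K) / Real.log K ^ 2) atTop
      (𝓝 (κ * 1 ^ 2 - κ)) := by
    have h1 := (hκM.mul hsq).sub hκ
    refine h1.congr' ?_
    filter_upwards [Real.tendsto_log_atTop.eventually (eventually_gt_atTop (1 : ℝ)),
      (Real.tendsto_log_atTop.comp hMtop).eventually (eventually_gt_atTop (1 : ℝ))] with K hl hl2
    simp only [Function.comp] at hl2 ⊢
    have hl0 : Real.log K ≠ 0 := by linarith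
    have hl20 : Real.log (K * Real.log K ^ 140) ≠ 0 := by linarith
    field_simp
  have hdiff0 : Tendsto (fun K : ℝ => (GX (K * Real.log K ^ 140) - GX K) / Real.log K ^ 2) atTop
      (𝓝 0) := by
    have : κ * 1 ^ 2 - κ = 0 := by ring
    rwa [this] at hdiff
  have hev1 : ∀ᶠ K : ℝ in atTop, |(GX (K * Real.log K ^ 140) - GX K) / Real.log K ^ 2| < ε₁ := by
    have := hdiff0.abs
    rw [abs_zero] at this
    exact this.eventually (gt_mem_nhds hε₁0)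
  have hev2 : ∀ᶠ K : ℝ in atTop, |GX K / Real.log K ^ 2| < |κ| + 1 :=
    hκ.abs.eventually (gt_mem_nhds (by linarith))
  have hev3 : ∀ᶠ K : ℝ in atTop, (|κ| + 1) / K ≤ ε₁ := by
    have h1 : Tendsto (fun K : ℝ => (|κ| + 1) / K) atTop (𝓝 0) := tendsto_id.const_div_atTop _
    exact (h1.eventually (gt_mem_nhds hε₁0)).mono (fun K h => le_of_lt h)
  have hev := (((((hev1.and hev2).and hev3).and hM3).and
    (Real.tendsto_log_atTop.eventually (eventually_ge_atTop (1 : ℝ)))).and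
    (eventually_ge_atTop (max (max K1 K2) 3)))
  obtain ⟨K0, hK0⟩ := eventually_atTop.1 hev
  refine ⟨K0, ?_⟩
  intro K hK L hL1 hL2
  obtain ⟨⟨⟨⟨⟨h1, h2⟩, h3⟩, h4⟩, h5⟩, h6⟩ := hK0 K hK
  have hK3 : 3 ≤ K := le_trans (le_max_right _ _) h6
  have hKK1 : K1 ≤ K := le_trans (le_trans (le_max_left _ _) (le_max_left _ _)) h6
  have hKK2 : K2 ≤ K := le_trans (le_trans (le_max_right _ _) (le_max_left _ _)) h6
  have hKpos : 0 < K := by linarith
  have hKL : K ≤ (L : ℝ) := by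
    refine le_trans ?_ hL1
    calc K = K ^ 1 := (pow_one K).symm
      _ ≤ K ^ 3 := pow_le_pow_right₀ (by linarith) (by norm_num)
  have hL3 : 3 ≤ L := by
    have : (3 : ℝ) ≤ (L : ℝ) := le_trans hK3 hKL
    exact_mod_cast this
  set r : ℝ := 1 - 1 / K with hr
  have hKinv : 1 / K ≤ 1 / 3 := one_div_le_one_div_of_le (by norm_num) hK3
  have hKinv0 : 0 < 1 / K := by positivity
  have hr0 : 1 / 2 ≤ r := by rw [hr]; linarith
  have hr1 : r < 1 := by rw [hr]; linarith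
  have hrpos : 0 < r := by linarith
  set M : ℝ := K * Real.log K ^ 140 with hM
  have hbd : ∀ q ∈ (PP L).divisors, Bd (sq q) := by
    intro q hq
    exact pdc.2.2.2.2.1 _ (pdc.2.2.2.2.2.2.1 q _ (sqc.2.2 q ((dvl L).1 q hq).1))
  have hset : (PP L).divisors.filter (fun q : ℕ => ¬ M < (q : ℝ)) = (Icc 1 ⌊M⌋₊).filter SF6 := by
    have hM0 : 0 ≤ M := by rw [hM]; positivity
    ext q
    rw [Finset.mem_filter, Finset.mem_filter, Finset.mem_Icc, not_lt, Nat.le_floor_iff hM0]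
    constructor
    · rintro ⟨a, b⟩
      exact ⟨⟨((dvl L).1 q a).2, b⟩, ((dvl L).1 q a).1⟩
    · rintro ⟨⟨a, b⟩, c⟩
      refine ⟨(dvl L).2 q a ?_ c, b⟩
      have : (q : ℝ) ≤ (L : ℝ) := b.trans (h4.trans hL1)
      exact_mod_cast this
  have key := main_id abl sumw sqc.2.1 hbd hrpos hr1 M
  rw [key, hset]
  have hE0 : 0 ≤ ∑ q ∈ (Icc 1 ⌊M⌋₊).filter SF6, Ab r (sq q) := by
    apply Finset.sum_nonneg
    intro q hq
    exact (triv q r (Finset.mem_filter.1 hq).2 hrpos.le hr1).1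
  have hE := hK1 K hKK1
  have hT := tail_sum hrpos.le hr1 ((PP L).divisors.filter (fun q : ℕ => M < (q : ℝ)))
    (fun q hq => hbd q (Finset.mem_filter.1 hq).1) (hK2 K hKK2 L hKL hL2)
  have hΛ2 : 0 < Real.log K ^ 2 := by positivity
  have hMK : |GX M - GX K| ≤ ε₁ * Real.log K ^ 2 := by
    rw [abs_div, abs_of_pos hΛ2, div_lt_iff₀ hΛ2] at h1
    exact h1.le
  have hK1' : |GX K| ≤ (|κ| + 1) * Real.log K ^ 2 := by
    rw [abs_div, abs_of_pos hΛ2, div_lt_iff₀ hΛ2] at h2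
    exact h2.le
  have hG : Gz L ≤ C / Real.log K ^ 2 := by
    refine (hGz L hL3).trans ?_
    apply div_le_div_of_nonneg_left hC.le hΛ2
    apply pow_le_pow_left₀ (by linarith)
    exact Real.log_le_log hKpos hKL
  have hfin := fin_est (κ := κ) (M1 := GX M) (K1 := GX K) (Kr := K) (gz_pos L) hG hC h5 hr0 hr1
    (by rw [hr]; ring) hKpos hE0 hE hT hMK hK1' hε₁0 h3
  have hGXM : GX M = ∑ q ∈ (Icc 1 ⌊M⌋₊).filter SF6, gq q := rfl
  rw [← hGXM]
  refine hfin.trans ?_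
  rw [hε₁]
  apply le_of_eq
  field_simp

end Pool.Agent.Helper22.TB
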