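import Pool.Agent.Helper90.TwinU
import Pool.Agent.Helper56.Mertens
import Pool.Agent.Helper69.LG.ME

/-!
# Project TB (MP_74f661_nt), part E: the pair correlation sum, definitions

`Ps L` is the set of the primes `5 ≤ p ≤ L`, `Gz L = ∏ (1 - 2/p)` over them (files of helper90).
-/

set_option autoImplicit false

open Finset Filter Topology
open Pool.Agent.Helper90.Twin (Ps Gz)

namespace Pool.Agent.Helper22.TB

/-- `(p - ν) / (p - 2)`, where `ν` is the number of residue classes modulo `p` which are removed at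
the places `0` or `h` -/
noncomputable def wp (p h : ℕ) : ℝ :=
  if p ∣ h then 1
  else if p ∣ 3 * h - 1 ∨ p ∣ 3 * h + 1 then ((p : ℝ) - 3) / ((p : ℝ) - 2)
  else ((p : ℝ) - 4) / ((p : ℝ) - 2)

/-- the conditional probability that `h` survives if `0` does -/
noncomputable def PL (L h : ℕ) : ℝ := ∏ p ∈ Ps L, wp p h

/-- squarefree and prime to `6` -/
def SF6 (q : ℕ) : Prop := Squarefree q ∧ Nat.Coprime q 6

/-- `∏_{p ∣ q} 2 / (p - 2)` -/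
noncomputable def gq (q : ℕ) : ℝ := ∏ p ∈ q.primeFactors, 2 / ((p : ℝ) - 2)

open Classical in
/-- `∑ gq q` over the squarefree `q ≤ K` prime to `6` -/
noncomputable def GX (K : ℝ) : ℝ := ∑ q ∈ (Icc 1 ⌊K⌋₊).filter SF6, gq q

/-- **E1** -/
def StmtE1 : Prop := ∀ ε : ℝ, 0 < ε → ∀ A : ℕ, 4 ≤ A → ∃ K0 : ℝ, ∀ K : ℝ, K0 ≤ K →
  ∀ L : ℕ, K ^ 3 ≤ (L : ℝ) → (L : ℝ) ≤ K ^ A →
    |(∑' h : ℕ, (-1 : ℝ) ^ (h + 1) * (1 - 1 / K) ^ h * PL L (h + 1)) + Gz L * GX K / 2| ≤ ε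

/-- **E2** -/
def StmtE2 : Prop := ∀ ε : ℝ, 0 < ε → ∃ N : ℝ, ∀ K : ℝ, N ≤ K → ∀ z : ℕ, N ≤ (z : ℝ) →
  |Gz z * GX K / (Real.log K / Real.log z) ^ 2 - Real.exp (-(2 * Real.eulerMascheroniConstant)) / 2|
    ≤ ε

/-! ### The multiplicative decomposition -/

/-- `σ_p(g)`: the mean zero part of the local factor -/
noncomputable def sm (p g : ℕ) : ℝ :=
  if p ∣ g then 2 / ((p : ℝ) - 2)
  else if p ∣ 3 * g - 1 ∨ p ∣ 3 * g + 1 then ((p : ℝ) - 4) / ((p : ℝ) - 2) ^ 2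
  else -4 / ((p : ℝ) - 2) ^ 2

/-- `σ_q(g) = ∏_{p ∣ q} σ_p(g)` -/
noncomputable def sq (q g : ℕ) : ℝ := ∏ p ∈ q.primeFactors, sm p g

/-- the product of the primes in `Ps L` -/
def PP (L : ℕ) : ℕ := ∏ p ∈ Ps L, p

/-- `∏_{p ∣ q} 4 p / (p - 2) ^ 2` -/
noncomputable def CQ (q : ℕ) : ℝ := ∏ p ∈ q.primeFactors, 4 * (p : ℝ) / ((p : ℝ) - 2) ^ 2

/-- `∑_{g ∈ ℤ} (-1) ^ g f(|g|) r ^ |g|` -/
noncomputable def Ab (r : ℝ) (f : ℕ → ℝ) : ℝ :=
  f 0 + 2 * ∑' g : ℕ, (-1 : ℝ) ^ (g + 1) * f (g + 1) * r ^ (g + 1)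

/-- bounded functions -/
def Bd (f : ℕ → ℝ) : Prop := ∃ B : ℝ, ∀ g, |f g| ≤ B

/-- nonnegative combinations of cosines -/
def PD (f : ℕ → ℝ) : Prop := ∃ (ι : Type) (_ : Fintype ι) (c θ : ι → ℝ),
  (∀ i, 0 ≤ c i) ∧ ∀ g : ℕ, f g = ∑ i, c i * Real.cos (θ i * g)

/-- nonnegative combinations of `cos (2 π a g / q)` with `a` prime to `q` -/
def PDU (q : ℕ) (f : ℕ → ℝ) : Prop := ∃ (ι : Type) (_ : Fintype ι) (c : ι → ℝ) (a : ι → ℤ),
  (∀ i, 0 ≤ c i) ∧ (∀ i, IsCoprime (a i) (q : ℤ)) ∧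
    ∀ g : ℕ, f g = ∑ i, c i * Real.cos (2 * Real.pi * a i * g / q)

/-- the part of `q` composed of the primes `≤ y` -/
noncomputable def smo (y : ℝ) (q : ℕ) : ℕ :=
  open Classical in ∏ p ∈ q.primeFactors.filter (fun p : ℕ => (p : ℝ) ≤ y), p

/-- the part of `q` composed of the primes `> y` -/
noncomputable def rou (y : ℝ) (q : ℕ) : ℕ :=
  open Classical in ∏ p ∈ q.primeFactors.filter (fun p : ℕ => y < (p : ℝ)), p

/-- the cut between smooth and rough: `log y = 4 log Q / log log Q` -/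
noncomputable def yQ (Q : ℕ) : ℝ := Real.exp (4 * Real.log Q / Real.log (Real.log Q))

end Pool.Agent.Helper22.TB
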